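import Pool.Agent.Helper36.TC.Defs

set_option autoImplicit false
set_option linter.unusedSectionVars false

open MeasureTheory Set Metric Module
open scoped Topology

namespace TC

variable {V : Type*} [NormedAddCommGroup V] [NormedSpace ℝ V] [FiniteDimensional ℝ V] [MeasurableSpace V] [BorelSpace V]

theorem loc_pos (μ : Measure V) [μ.IsAddHaarMeasure] [Nontrivial V] {y : V} (hy : Smooth y)
    (h : ∀ᵐ x ∂μ, x ∈ closedBall (0:V) 1 → |ND x y| = Real.sign (ND y x) * ND x y) {u : V}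
    (hu : ND y u = 0) {t : ℝ} (ht : 0 < t) : ‖u‖ ≤ ‖u + t • y‖ := by
  by_contra hlt
  push Not at hlt
  have hy0 : 0 < ‖y‖ := norm_pos_iff.2 (smooth_ne_zero hy)
  -- perturb `u`
  have hO : IsOpen {v : V | ‖v + t • y‖ < ‖v‖} :=
    isOpen_lt (by fun_prop) (by fun_prop)
  have hc : Filter.Tendsto (fun e : ℝ => u + e • y) (𝓝 0) (𝓝 u) := by
    have : Continuous (fun e : ℝ => u + e • y) := by fun_prop
    simpa using this.tendsto 0
  have hev : ∀ᶠ e : ℝ in 𝓝 0, u + e • y ∈ {v : V | ‖v + t • y‖ < ‖v‖} :=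
    hc.eventually (hO.mem_nhds hlt)
  obtain ⟨e, he, hepos⟩ : ∃ e : ℝ, u + e • y ∈ {v : V | ‖v + t • y‖ < ‖v‖} ∧ 0 < e := by
    have h1 : ∀ᶠ e : ℝ in 𝓝[>] 0, u + e • y ∈ {v : V | ‖v + t • y‖ < ‖v‖} := hev.filter_mono nhdsWithin_le_nhds
    have h2 : ∀ᶠ e : ℝ in 𝓝[>] 0, 0 < e := eventually_mem_nhdsWithin
    exact (h1.and h2).exists
  set v : V := u + e • y with hv
  have hvlt : ‖v + t • y‖ < ‖v‖ := he
  have hND : 0 < ND y v := by
    rw [hv, map_add, map_smul, hu, nd_self hy, zero_add, smul_eq_mul]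
    positivity
  -- scale
  set s : ℝ := (‖v‖ + 1)⁻¹ with hs
  have hs0 : 0 < s := by positivity
  set W : Set V := {x : V | ‖x‖ < 1} ∩ ({x : V | 0 < ND y x} ∩ {x : V | ‖x + (s * t) • y‖ < ‖x‖}) with hW
  have hWo : IsOpen W := by
    refine IsOpen.inter (isOpen_lt (by fun_prop) (by fun_prop)) (IsOpen.inter ?_ ?_)
    · exact isOpen_lt continuous_const (ND y).continuous
    · exact isOpen_lt (by fun_prop) (by fun_prop)
  have hsW : s • v ∈ W := by
    refine ⟨?_, ?_, ?_⟩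
    · change ‖s • v‖ < 1
      rw [norm_smul, Real.norm_of_nonneg hs0.le, hs, inv_mul_lt_iff₀ (by positivity)]
      linarith
    · change 0 < ND y (s • v)
      rw [map_smul, smul_eq_mul]
      positivity
    · change ‖s • v + (s * t) • y‖ < ‖s • v‖
      have h1 : s • v + (s * t) • y = s • (v + t • y) := by rw [smul_add s v (t • y), smul_smul s t y]
      rw [h1, norm_smul, norm_smul]
      exact mul_lt_mul_of_pos_left hvlt (norm_pos_iff.2 hs0.ne')
  obtain ⟨x, hx1, hx2, hxW⟩ : ∃ x, (x ∈ closedBall (0:V) 1 → |ND x y| = Real.sign (ND y x) * ND x y) ∧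
      Smooth x ∧ x ∈ W := by
    have hd := Measure.dense_of_ae (h.and (ae_smooth μ))
    obtain ⟨x, hx, hx'⟩ := hd.inter_open_nonempty W hWo ⟨_, hsW⟩
    exact ⟨x, hx'.1, hx'.2, hx⟩
  · obtain ⟨hx3, hx4, hx5⟩ := hxW
    have hx3' : ‖x‖ < 1 := hx3
    have hx4' : 0 < ND y x := hx4
    have hx5' : ‖x + (s * t) • y‖ < ‖x‖ := hx5
    have h1 := hx1 (by rw [mem_closedBall_zero_iff]; exact hx3'.le)
    rw [Real.sign_of_pos hx4', one_mul] at h1
    have h2 : 0 ≤ ND x y := by rw [← h1]; exact abs_nonneg _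
    have h3 := nd_sub hx2 ((s * t) • y)
    rw [map_smul, smul_eq_mul] at h3
    have h4 : 0 ≤ s * t * ND x y := by positivity
    linarith

theorem loc_perp (μ : Measure V) [μ.IsAddHaarMeasure] [Nontrivial V] {y : V} (hy : Smooth y)
    (h : ∀ᵐ x ∂μ, x ∈ closedBall (0:V) 1 → |ND x y| = Real.sign (ND y x) * ND x y) {u : V}
    (hu : ND y u = 0) : Perp u y := by
  intro t
  rcases lt_trichotomy t 0 with ht | ht | ht
  · have h1 := loc_pos μ hy h (u := -u) (by rw [map_neg, hu, neg_zero]) (neg_pos.2 ht)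
    rw [norm_neg] at h1
    have h2 : -u + (-t) • y = -(u + t • y) := by rw [neg_smul]; abel
    rwa [h2, norm_neg] at h1
  · rw [ht, zero_smul, add_zero]
  · exact loc_pos μ hy h hu ht

theorem loc (μ : Measure V) [μ.IsAddHaarMeasure] [Nontrivial V]
    (h : ∀ᵐ y ∂μ, y ∈ closedBall (0:V) 1 → ∀ᵐ x ∂μ, x ∈ closedBall (0:V) 1 →
      |ND x y| = Real.sign (ND y x) * ND x y) (p : V) {ε : ℝ} (hε : 0 < ε) :
    ∃ q : V, ‖q - p‖ < ε ∧ ∃ f : V →L[ℝ] ℝ, Supp f q ∧ ∀ u : V, f u = 0 → Perp u q := by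
  set R : ℝ := ‖p‖ + 1 with hR
  have hR0 : 0 < R := by positivity
  have hOo : IsOpen (ball (R⁻¹ • p) (ε / R) ∩ ball (0:V) 1) := isOpen_ball.inter isOpen_ball
  have hne : (ball (R⁻¹ • p) (ε / R) ∩ ball (0:V) 1).Nonempty := by
    refine ⟨R⁻¹ • p, mem_ball_self (by positivity), ?_⟩
    rw [mem_ball_zero_iff, norm_smul, Real.norm_of_nonneg (inv_nonneg.2 hR0.le), inv_mul_lt_iff₀ hR0]
    linarith
  have hd := Measure.dense_of_ae (h.and (ae_smooth μ))
  obtain ⟨y, ⟨hy1, hy2⟩, hy3, hy4⟩ := hd.inter_open_nonempty _ hOo hne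
  have hyB : y ∈ closedBall (0:V) 1 := ball_subset_closedBall hy2
  refine ⟨R • y, ?_, ND y, ⟨nd_norm_le y, ?_⟩, fun u hu => (loc_perp μ hy4 (hy3 hyB) hu).smul_right R⟩
  · have h1 : R • y - p = R • (y - R⁻¹ • p) := by
      rw [smul_sub, smul_smul, mul_inv_cancel₀ hR0.ne', one_smul]
    rw [h1, norm_smul, Real.norm_of_nonneg hR0.le]
    have h2 : ‖y - R⁻¹ • p‖ < ε / R := by rwa [mem_ball, dist_eq_norm] at hy1
    calc R * ‖y - R⁻¹ • p‖ < R * (ε / R) := mul_lt_mul_of_pos_left h2 hR0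
      _ = ε := by field_simp
  · rw [map_smul, nd_self hy4, norm_smul, Real.norm_of_nonneg hR0.le, smul_eq_mul]

end TC
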