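import Pool.Agent.Helper36.TC.Defs

set_option autoImplicit false
set_option linter.unusedSectionVars false

open MeasureTheory Set Metric Module
open scoped Topology

namespace TC

variable {V : Type*} [NormedAddCommGroup V] [NormedSpace ℝ V] [FiniteDimensional ℝ V] [MeasurableSpace V] [BorelSpace V]

theorem opt_finite (μ : Measure V) [μ.IsAddHaarMeasure] : IsFiniteMeasure (μ.restrict (closedBall (0:V) 1)) := by
  refine ⟨?_⟩
  rw [Measure.restrict_apply_univ]
  exact (isCompact_closedBall (0:V) 1).measure_lt_top

theorem opt_int_sign (μ : Measure V) [μ.IsAddHaarMeasure] (u z : V) :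
    Integrable (fun x : V => Real.sign (ND x u) * ND x z) (μ.restrict (closedBall (0:V) 1)) := by
  have := opt_finite μ
  refine Integrable.of_bound ?_ ‖z‖ ?_
  · exact ((measurable_rsign.comp (measurable_nd_apply u)).mul (measurable_nd_apply z)).aestronglyMeasurable
  · refine Filter.Eventually.of_forall fun x => ?_
    rw [Real.norm_eq_abs, abs_mul]
    calc |Real.sign (ND x u)| * |ND x z| ≤ 1 * ‖z‖ :=
          mul_le_mul (abs_sign_le _) (nd_abs_le _ _) (abs_nonneg _) zero_le_one
      _ = ‖z‖ := one_mul _

theorem opt_int_abs (μ : Measure V) [μ.IsAddHaarMeasure] (z : V) :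
    Integrable (fun x : V => |ND x z|) (μ.restrict (closedBall (0:V) 1)) := by
  have := opt_finite μ
  refine Integrable.of_bound ?_ ‖z‖ ?_
  · exact (measurable_nd_apply z).norm.aestronglyMeasurable
  · refine Filter.Eventually.of_forall fun x => ?_
    rw [Real.norm_eq_abs, abs_abs]
    exact nd_abs_le _ _

theorem opt (μ : Measure V) [μ.IsAddHaarMeasure] {L : ℝ}
    (hL : ∀ z : V, ∫ x in closedBall (0:V) 1, |ND x z| ∂μ = L * ‖z‖) {u : V} (hu : Smooth u) (z : V) :
    ∫ x in closedBall (0:V) 1, Real.sign (ND x u) * ND x z ∂μ = L * ND u z := by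
  set T : V → ℝ := fun z => ∫ x in closedBall (0:V) 1, Real.sign (ND x u) * ND x z ∂μ with hT
  have hlin : ∀ t : ℝ, T (u + t • z) = T u + t * T z := by
    intro t
    simp only [hT]
    rw [← integral_const_mul, ← integral_add (opt_int_sign μ u u) ((opt_int_sign μ u z).const_mul t)]
    refine integral_congr_ae (Filter.Eventually.of_forall fun x => ?_)
    simp only [map_add, map_smul, smul_eq_mul]
    ring
  have hle : ∀ w : V, T w ≤ L * ‖w‖ := by
    intro w
    rw [← hL w]
    refine integral_mono (opt_int_sign μ u w) (opt_int_abs μ w) fun x => ?_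
    simp only
    calc Real.sign (ND x u) * ND x w ≤ |Real.sign (ND x u) * ND x w| := le_abs_self _
      _ = |Real.sign (ND x u)| * |ND x w| := abs_mul _ _
      _ ≤ 1 * |ND x w| := mul_le_mul_of_nonneg_right (abs_sign_le _) (abs_nonneg _)
      _ = |ND x w| := one_mul _
  have heq : T u = L * ‖u‖ := by
    rw [← hL u]
    refine integral_congr_ae (Filter.Eventually.of_forall fun x => ?_)
    exact sign_mul_self_eq _
  have hmin : IsLocalMin (fun t : ℝ => L * ‖u + t • z‖ - (T u + t * T z)) 0 := by
    refine Filter.Eventually.of_forall fun t => ?_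
    simp only [zero_smul, add_zero, zero_mul]
    rw [heq, sub_self, ← heq, ← hlin t]
    exact sub_nonneg.2 (hle _)
  have hder : HasDerivAt (fun t : ℝ => L * ‖u + t • z‖ - (T u + t * T z)) (L * ND u z - T z) 0 := by
    have h1 := (nd_hasDeriv hu z).const_mul L
    have h2 : HasDerivAt (fun t : ℝ => T u + t * T z) (T z) 0 := by
      simpa using ((hasDerivAt_id (0 : ℝ)).mul_const (T z)).const_add (T u)
    exact h1.sub h2
  have h0 := hmin.hasDerivAt_eq_zero hder
  change T z = L * ND u z
  linarith

end TC
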